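import Pool.Agent.Helper32.FR.Ev
import Pool.Agent.Helper82.BA.Coding
import Pool.Agent.Helper28.HM.FnTools
import Pool.Agent.Helper50.LF.Names

/-! # DS-S1: codes of names of functions and sequences -/

set_option autoImplicit false
set_option linter.unusedSectionVars false

namespace Pool.Agent.Helper50.LF

open Set Filter Pool.Agent.Helper33.HM Pool.Agent.Helper33.HMG Pool.Agent.Helper32.HB
open Pool.Agent.Helper32.FR (wt)
open Pool.Agent.Helper94.BA (leStar decV codV fnLe shV sh decV_isFn decV_codV h82_eqN_sup h32_Ev h32_self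
  h32_all h32_ex h32_not h32_imp h32_or h32_and h32_congr h32_sq h32_cq h32_sq_nm h32_fr_shV
  h32_exists_compl)

section Codes

universe u

variable {B : Type u} [CompleteBooleanAlgebra B]

/-- The name of the graph of the function `φ ∘ wt`. -/
def gT (φ : ℕ → ℕ → B) (c : ℕ) : B :=
  ⨆ a : Node, ⨆ k : ℕ, ⨆ _ : c = Nat.pair (Encodable.encode a) k, eqN (φ (wt a)) k

/-- A node of weight `m`. -/
def nOf (m : ℕ) : Node := if m = 0 then [] else [m - 1]

theorem N_nOf (m : ℕ) : wt (nOf m) = m := by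
  unfold nOf wt
  split_ifs with h
  · simp [h]
  · simp
    omega

/-- The function named by the graph `x`. -/
def un (x : ℕ → B) (m k : ℕ) : B := decV x (Encodable.encode (nOf m)) k

theorem gT_pair (φ : ℕ → ℕ → B) (a : Node) (k : ℕ) :
    gT φ (Nat.pair (Encodable.encode a) k) = eqN (φ (wt a)) k := by
  apply le_antisymm
  · refine iSup_le fun a' => iSup_le fun k' => iSup_le fun h => ?_
    obtain ⟨h1, h2⟩ := Nat.pair_eq_pair.1 h
    rw [← Encodable.encode_injective h1, h2]
  · exact le_iSup_of_le a (le_iSup_of_le k (le_iSup_of_le rfl le_rfl))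

theorem decV_gT {φ : ℕ → ℕ → B} (h : IsFn Set.univ φ) (a : Node) (k : ℕ) :
    decV (gT φ) (Encodable.encode a) k = φ (wt a) k := by
  unfold decV
  simp only [gT_pair]
  rw [h82_eqN_sup (h.mono (wt a)) k, ← compl_iSup, iSup_eqN (h.tot (wt a)), compl_top, sup_bot_eq]

theorem un_gT {φ : ℕ → ℕ → B} (h : IsFn Set.univ φ) : un (gT φ) = φ := by
  funext m k
  unfold un
  rw [decV_gT h, N_nOf]

/-- The name of the function with the value at `m` at most `k` if and only if all values of the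
function coded by `x` at nodes of weight at most `m` are less than `k`. -/
def domV (x : ℕ → B) (m k : ℕ) : B :=
  ⨅ a : Node, ⨅ _ : wt a ≤ m, ⨆ i : ℕ, ⨆ _ : i < k, decV x (Encodable.encode a) i

theorem N_fin (k : ℕ) : {t : Node | wt t ≤ k}.Finite := by
  induction k with
  | zero =>
    apply (Set.finite_singleton ([] : Node)).subset
    intro t ht
    simp only [Set.mem_ofPred_eq, wt] at ht
    have h : t.length = 0 := by omega
    exact List.length_eq_zero_iff.1 h
  | succ k ih =>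
    have : {t : Node | wt t ≤ k + 1} ⊆
        insert [] (⋃ n ∈ Set.Iic k, (List.cons n) '' {t : Node | wt t ≤ k}) := by
      intro t ht
      cases t with
      | nil => simp
      | cons n t =>
        right
        have h1 : wt (n :: t) = wt t + 1 + n := by
          simp [wt]
          ring
        simp only [Set.mem_ofPred_eq, h1] at ht
        simp only [Set.mem_iUnion]
        exact ⟨n, by simp only [Set.mem_Iic]; omega, t, by simp only [Set.mem_ofPred_eq]; omega,
          rfl⟩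
    refine Set.Finite.subset (Set.Finite.insert _ ?_) this
    exact (Set.finite_Iic k).biUnion fun n _ => ih.image _

theorem N_fin_iff (p : ℕ → Prop) : {s : Node | p (wt s)}.Finite ↔ {k | p k}.Finite := by
  constructor
  · intro h
    refine (h.image wt).subset ?_
    intro k hk
    refine ⟨nOf k, ?_, N_nOf k⟩
    simp only [mem_ofPred_eq]
    rw [N_nOf]
    exact hk
  · intro h
    obtain ⟨k, hk⟩ := h.bddAbove
    exact (N_fin k).subset fun t ht => hk ht

theorem iSup_finset_inf {ι : Type*} (s : Finset ι) (h : ι → ℕ → B) (hm : ∀ i, Monotone (h i))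
    (ht : ∀ i, ⨆ k, h i k = ⊤) : ⨆ k, ⨅ i ∈ s, h i k = ⊤ := by
  classical
  induction s using Finset.induction_on with
  | empty => simp
  | insert a s ha ih =>
    simp only [Finset.iInf_insert]
    have h1 : Monotone fun k => ⨅ i ∈ s, h i k := fun k k' hk =>
      iInf_mono fun i => iInf_mono fun _ => hm i hk
    rw [iSup_inf_of_monotone (hm a) h1, ht a, ih, inf_top_eq]

theorem domV_fn (x : ℕ → B) : IsFn Set.univ (domV x) := by
  have hd := decV_isFn x
  have hm : ∀ a : Node, Monotone fun k => ⨆ i : ℕ, ⨆ _ : i < k, decV x (Encodable.encode a) i := by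
    intro a k k' hk
    exact iSup_mono fun i => iSup_mono' fun hi => ⟨hi.trans_le hk, le_rfl⟩
  refine ⟨fun _ _ => mem_univ _, fun m k => iInf_mono fun a => iInf_mono fun _ =>
    hm a (Nat.le_succ k), fun m => ?_⟩
  have h1 := iSup_finset_inf (N_fin m).toFinset
    (fun (a : Node) k => ⨆ i : ℕ, ⨆ _ : i < k, decV x (Encodable.encode a) i) hm fun a => ?_
  · rw [← h1]
    unfold domV
    simp only [Set.Finite.mem_toFinset, mem_ofPred_eq]
  · apply top_unique
    rw [← hd.tot (Encodable.encode a)]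
    exact iSup_le fun i => le_iSup_of_le (i + 1) (le_iSup_of_le i (le_iSup_of_le (Nat.lt_succ_self i)
      le_rfl))

/-- The name of the graph of the sequence `z`. -/
def zcV (z : ℕ → Node → B) (c : ℕ) : B :=
  ⨆ k : ℕ, ⨆ a : Node, ⨆ _ : c = Nat.pair k (Encodable.encode a), z k a

/-- The sequence with the graph `x`. -/
def zOf (x : ℕ → B) (k : ℕ) (a : Node) : B := x (Nat.pair k (Encodable.encode a))

theorem zOf_zcV (z : ℕ → Node → B) : zOf (zcV z) = z := by
  funext k a
  apply le_antisymm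
  · refine iSup_le fun k' => iSup_le fun a' => iSup_le fun h => ?_
    obtain ⟨h1, h2⟩ := Nat.pair_eq_pair.1 h
    rw [Encodable.encode_injective h2, h1]
  · exact le_iSup_of_le k (le_iSup_of_le a (le_iSup_of_le rfl le_rfl))

/-- The name of a set of nodes of the ground model. -/
def stV (A : Set Node) (c : ℕ) : B := ⨆ _ : stc A c, ⊤

/-- The set of nodes coded by `x`. -/
def aOf (x : ℕ → B) (a : Node) : B := x (Encodable.encode a)

theorem aOf_stV (A : Set Node) : aOf (stV A : ℕ → B) = fun a => ⨆ _ : a ∈ A, ⊤ := by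
  funext a
  have h : stc A (Encodable.encode a) ↔ a ∈ A := by
    constructor
    · rintro ⟨b, hb, h⟩
      rwa [Encodable.encode_injective h]
    · exact fun h => ⟨a, h, rfl⟩
  unfold aOf stV
  by_cases ha : a ∈ A
  · simp [h, ha]
  · simp [h, ha]

/-- The value of: some element `a` of `A` which extends `x ++ [l]`, `l ≥ m`, belongs to the trees
`U` of the first `n` functions. -/
def clS (X : ℕ → ℕ → ℕ → B) (n : ℕ) (A : Node → B) (x : Node) (m : ℕ) : B :=
  ⨆ a : Node, ⨆ _ : ∃ l, m ≤ l ∧ x ++ [l] <+: a, A a ⊓ ⨅ i : ℕ, ⨅ _ : i < n, uV (X i) a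

theorem clS_congr {X X' : ℕ → ℕ → ℕ → B} {n : ℕ} (h : ∀ i < n, X i = X' i) (A : Node → B)
    (x : Node) (m : ℕ) : clS X n A x m = clS X' n A x m := by
  unfold clS
  refine iSup_congr fun a => iSup_congr fun _ => ?_
  congr 1
  exact iInf_congr fun i => iInf_congr fun hi => by rw [h i hi]

end Codes

section Events

universe u

variable {P₀ : Type u} [Preorder P₀]

theorem ev_eqN (φ : ℕ → RO P₀) (m : ℕ) :
    h32_Ev (eqN φ m) fun G => Fr G (φ m) ∧ ∀ j, j < m → ¬ Fr G (φ j) :=
  h32_and (h32_self _) (h32_all fun _ => h32_all fun _ => h32_not (h32_self _))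

theorem ev_uV (φ : ℕ → ℕ → RO P₀) (a : Node) :
    h32_Ev (uV φ a) fun G => ∀ (i : ℕ) (_ : i < a.length), ¬ Fr G (eqN (φ (wt (a.take i))) a[i]) :=
  h32_all fun _ => h32_all fun _ => h32_not (h32_self _)

theorem ev_leS (φ ψ : ℕ → ℕ → RO P₀) :
    h32_Ev (leStar φ ψ) fun G => ∃ m, ∀ n, m ≤ n → ∀ k, Fr G (ψ n k) → Fr G (φ n k) :=
  h32_ex fun _ => h32_all fun _ => h32_all fun _ => h32_all fun _ =>
    h32_imp (h32_self _) (h32_self _)

theorem ev_clS (X : ℕ → ℕ → ℕ → RO P₀) (n : ℕ) (A : Node → RO P₀) (x : Node) (m : ℕ) :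
    h32_Ev (clS X n A x m) fun G => ∃ a : Node, ∃ _ : ∃ l, m ≤ l ∧ x ++ [l] <+: a,
      Fr G (A a) ∧ ∀ i, i < n → Fr G (uV (X i) a) :=
  h32_ex fun _ => h32_ex fun _ => h32_and (h32_self _)
    (h32_all fun _ => h32_all fun _ => h32_self _)

theorem ev_cv1 (z : ℕ → Node → RO P₀) (A : Node → RO P₀) :
    h32_Ev (⨅ k : ℕ, ⨆ a : Node, z k a ⊓ A a) fun G => ∀ k, ∃ a, Fr G (z k a) ∧ Fr G (A a) :=
  h32_all fun _ => h32_ex fun _ => h32_and (h32_self _) (h32_self _)

theorem ev_cv2 (z : ℕ → Node → RO P₀) :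
    h32_Ev (⨅ k : ℕ, ⨅ a : Node, ⨅ b : Node, ⨅ _ : a ≠ b, (z k a ⊓ z k b)ᶜ) fun G =>
      ∀ k a b, a ≠ b → ¬ (Fr G (z k a) ∧ Fr G (z k b)) :=
  h32_all fun _ => h32_all fun _ => h32_all fun _ => h32_all fun _ =>
    h32_not (h32_and (h32_self _) (h32_self _))

theorem ev_cv3 (z : ℕ → Node → RO P₀) (x : Node) :
    h32_Ev (⨅ m : ℕ, ⨆ K : ℕ, ⨅ k : ℕ, ⨅ _ : K ≤ k, ⨆ a : Node,
      ⨆ _ : ∃ l, m ≤ l ∧ x ++ [l] <+: a, z k a) fun G =>
      ∀ m, ∃ K, ∀ k, K ≤ k → ∃ a : Node, ∃ _ : ∃ l, m ≤ l ∧ x ++ [l] <+: a, Fr G (z k a) :=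
  h32_all fun _ => h32_ex fun _ => h32_all fun _ => h32_all fun _ => h32_ex fun _ =>
    h32_ex fun _ => h32_self _

theorem ev_cv4 (z : ℕ → Node → RO P₀) (φ : ℕ → ℕ → RO P₀) :
    h32_Ev (⨆ K : ℕ, ⨅ k : ℕ, ⨅ _ : K ≤ k, ⨅ a : Node, z k a ⇨ uV φ a) fun G =>
      ∃ K, ∀ k, K ≤ k → ∀ a, Fr G (z k a) → Fr G (uV φ a) :=
  h32_ex fun _ => h32_all fun _ => h32_all fun _ => h32_all fun _ =>
    h32_imp (h32_self _) (h32_self _)

end Events

end Pool.Agent.Helper50.LF
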