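import Pool.Agent.Helper32.LF.Point

/-! # DS-S1: the transfer to a countable transitive model -/

set_option autoImplicit false
set_option linter.unusedSectionVars false

namespace Pool.Agent.Helper50.LF

open Set Filter Pool.Agent.Helper33.HM Pool.Agent.Helper33.HMG Pool.Agent.Helper32.HB
open Pool.Agent.Helper32.FR (wt)
open Pool.Agent.Helper94.BA (leStar decV codV fnLe shV sh decV_isFn decV_codV h82_eqN_sup h32_Ev h32_self
  h32_all h32_ex h32_not h32_imp h32_or h32_and h32_congr h32_sq h32_cq h32_sq_nm h32_fr_shV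
  h32_exists_compl)

/-! ### Neighbourhoods in the Dow space -/

/-- The node `a` extends `x ++ [l]` for some `l ≥ m`. -/
def Far (x : Node) (m : ℕ) (a : Node) : Prop := ∃ l, m ≤ l ∧ x ++ [l] <+: a

theorem far_mono {x a : Node} {m m' : ℕ} (h : m ≤ m') (ha : Far x m' a) : Far x m a := by
  obtain ⟨l, hl, h1⟩ := ha
  exact ⟨l, h.trans hl, h1⟩

theorem mem_cone {s a : Node} : a ∈ cone s ↔ s <+: a := by
  constructor
  · rintro ⟨u, rfl⟩
    exact List.prefix_append _ _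
  · rintro ⟨u, rfl⟩
    exact ⟨u, rfl⟩

theorem far_cone {x s a : Node} (h : x ∈ cone s) (ha : Far x 0 a) : a ∈ cone s := by
  obtain ⟨l, -, h1⟩ := ha
  rw [mem_cone] at h ⊢
  exact h.trans ((List.prefix_append x [l]).trans h1)

theorem far_not_cone {x s a : Node} (h : x ∉ cone s) (ha : Far x (s.getD x.length 0 + 1) a) :
    a ∉ cone s := by
  obtain ⟨l, hl, h1⟩ := ha
  rw [mem_cone] at h ⊢
  intro h2
  have hx : x <+: a := (List.prefix_append x [l]).trans h1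
  have hlen : x.length < s.length := by
    by_contra hle
    exact h (List.prefix_of_prefix_length_le h2 hx (not_lt.1 hle))
  have h3 : (x ++ [l]) <+: s := by
    apply List.prefix_of_prefix_length_le h1 h2
    simp
    omega
  obtain ⟨t, rfl⟩ := h3
  simp at hl

/-- Every open set containing `x` contains, for some finite set `D` of members of `B` with `x` in
their trees and some `m`, all nodes in the trees of the members of `D` which are far from `x`. -/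
theorem nbhd {B : Set (Node → ℕ)} {x : Node} {V : Set Node}
    (hV : TopologicalSpace.GenerateOpen
      ({V | ∃ s, V = cone s} ∪ {V | ∃ s, V = (cone s)ᶜ} ∪ {V | ∃ f ∈ B, V = U f}) V) (hx : x ∈ V) :
    ∃ (l : List (Node → ℕ)) (m : ℕ), (∀ f ∈ l, f ∈ B ∧ x ∈ U f) ∧
      ∀ a, Far x m a → (∀ f ∈ l, a ∈ U f) → a ∈ V := by
  induction hV with
  | basic V hV =>
    rcases hV with (⟨s, rfl⟩ | ⟨s, rfl⟩) | ⟨f, hf, rfl⟩
    · exact ⟨[], 0, by simp, fun a ha _ => far_cone hx ha⟩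
    · exact ⟨[], _, by simp, fun a ha _ => far_not_cone hx ha⟩
    · exact ⟨[f], 0, by simpa using ⟨hf, hx⟩, fun a _ ha => ha f (by simp)⟩
  | univ => exact ⟨[], 0, by simp, fun a _ _ => mem_univ a⟩
  | inter V V' _ _ ih ih' =>
    obtain ⟨l, m, h1, h2⟩ := ih hx.1
    obtain ⟨l', m', h1', h2'⟩ := ih' hx.2
    refine ⟨l ++ l', max m m', fun f hf => ?_, fun a ha hf => ⟨?_, ?_⟩⟩
    · rcases List.mem_append.1 hf with h | h
      · exact h1 f h
      · exact h1' f h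
    · exact h2 a (far_mono (le_max_left _ _) ha) fun f h => hf f (List.mem_append_left _ h)
    · exact h2' a (far_mono (le_max_right _ _) ha) fun f h => hf f (List.mem_append_right _ h)
  | sUnion S _ ih =>
    obtain ⟨V, hV, hxV⟩ := hx
    obtain ⟨l, m, h1, h2⟩ := ih V hV hxV
    exact ⟨l, m, h1, fun a ha hf => ⟨V, hV, h2 a ha hf⟩⟩

theorem isOpen_sub {B : Set (Node → ℕ)} {V : Set Node}
    (hV : V ∈ ({V | ∃ s, V = cone s} ∪ {V | ∃ s, V = (cone s)ᶜ} ∪ {V | ∃ f ∈ B, V = U f} :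
      Set (Set Node))) : @IsOpen Node (dow B) V :=
  TopologicalSpace.isOpen_generateFrom_of_mem hV

theorem mem_closure_of {B : Set (Node → ℕ)} {x : Node} {A : Set Node}
    (h : ∀ (l : List (Node → ℕ)) (m : ℕ), (∀ f ∈ l, f ∈ B ∧ x ∈ U f) →
      ∃ a ∈ A, Far x m a ∧ ∀ f ∈ l, a ∈ U f) : x ∈ @closure Node (dow B) A := by
  let _ := dow B
  rw [mem_closure_iff]
  intro V hV hx
  obtain ⟨l, m, h1, h2⟩ := nbhd hV hx
  obtain ⟨a, ha, hfar, hU⟩ := h l m h1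
  exact ⟨a, h2 a hfar hU, ha⟩

theorem exists_far {B : Set (Node → ℕ)} (x : Node) (m : ℕ) :
    ∃ V, @IsOpen Node (dow B) V ∧ x ∈ V ∧ ∀ a ∈ V, a = x ∨ Far x m a := by
  let _ := dow B
  induction m with
  | zero =>
    refine ⟨cone x, isOpen_sub (Or.inl (Or.inl ⟨x, rfl⟩)), ⟨[], by simp⟩, ?_⟩
    rintro a ⟨u, rfl⟩
    cases u with
    | nil => exact Or.inl (by simp)
    | cons l u => exact Or.inr ⟨l, Nat.zero_le _, u, by simp⟩
  | succ m ih =>
    obtain ⟨V, hV, hx, h1⟩ := ih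
    have hV2 : @IsOpen Node (dow B) (cone (x ++ [m]))ᶜ := isOpen_sub (Or.inl (Or.inr ⟨x ++ [m], rfl⟩))
    refine ⟨V ∩ (cone (x ++ [m]))ᶜ, hV.inter hV2, ⟨hx, ?_⟩, ?_⟩
    · rintro ⟨u, hu⟩
      have := congrArg List.length hu
      simp at this
    · rintro a ⟨h2, h3⟩
      rcases h1 a h2 with h4 | ⟨l, hl, h4⟩
      · exact Or.inl h4
      · rcases hl.lt_or_eq with h5 | rfl
        · exact Or.inr ⟨l, h5, h4⟩
        · exact absurd (mem_cone.2 h4) h3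

theorem exists_of_mem_closure {B : Set (Node → ℕ)} {x : Node} {A : Set Node} (hxA : x ∉ A)
    (h : x ∈ @closure Node (dow B) A) (l : List (Node → ℕ)) (m : ℕ)
    (hl : ∀ f ∈ l, f ∈ B ∧ x ∈ U f) : ∃ a ∈ A, Far x m a ∧ ∀ f ∈ l, a ∈ U f := by
  let _ := dow B
  have hopen : ∀ l : List (Node → ℕ), (∀ f ∈ l, f ∈ B ∧ x ∈ U f) →
      ∃ V, IsOpen V ∧ x ∈ V ∧ ∀ a ∈ V, ∀ f ∈ l, a ∈ U f := by
    intro l
    induction l with
    | nil => exact fun _ => ⟨univ, isOpen_univ, mem_univ x, by simp⟩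
    | cons f l ih =>
      intro hl
      obtain ⟨V, hV, hx, hVl⟩ := ih fun f' hf' => hl f' (List.mem_cons_of_mem _ hf')
      obtain ⟨hf, hxf⟩ := hl f List.mem_cons_self
      refine ⟨V ∩ U f, hV.inter (isOpen_sub (Or.inr ⟨f, hf, rfl⟩)), ⟨hx, hxf⟩, ?_⟩
      rintro a ⟨h1, h2⟩ f' hf'
      rcases List.mem_cons.1 hf' with rfl | h3
      · exact h2
      · exact hVl a h1 f' h3
  obtain ⟨V, hV, hxV, h1⟩ := hopen l hl
  obtain ⟨V', hV', hxV', h2⟩ := exists_far (B := B) x m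
  obtain ⟨a, ⟨h3, h4⟩, ha⟩ := mem_closure_iff.1 h (V ∩ V') (hV.inter hV') ⟨hxV, hxV'⟩
  refine ⟨a, ha, ?_, h1 a h3⟩
  rcases h2 a h4 with h5 | h5
  · exact absurd (h5 ▸ ha) hxA
  · exact h5

theorem tendsto_iff {B : Set (Node → ℕ)} {x : Node} {z : ℕ → Node}
    (h : ∀ m, ∃ K, ∀ k, K ≤ k → Far x m (z k))
    (h' : ∀ f ∈ B, x ∈ U f → ∃ K, ∀ k, K ≤ k → z k ∈ U f) :
    Tendsto z atTop (@nhds Node (dow B) x) := by
  let _ := dow B
  refine tendsto_atTop_nhds.2 fun V hx hV => ?_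
  obtain ⟨l, m, h1, h2⟩ := nbhd hV hx
  have hl : ∀ l : List (Node → ℕ), (∀ f ∈ l, f ∈ B ∧ x ∈ U f) →
      ∃ K, ∀ k, K ≤ k → ∀ f ∈ l, z k ∈ U f := by
    intro l
    induction l with
    | nil => exact fun _ => ⟨0, by simp⟩
    | cons f l ih =>
      intro hl
      obtain ⟨K, hK⟩ := ih fun f' hf' => hl f' (List.mem_cons_of_mem _ hf')
      obtain ⟨hf, hxf⟩ := hl f List.mem_cons_self
      obtain ⟨K', hK'⟩ := h' f hf hxf
      refine ⟨max K K', fun k hk f' hf' => ?_⟩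
      rcases List.mem_cons.1 hf' with rfl | h3
      · exact hK' k ((le_max_right _ _).trans hk)
      · exact hK k ((le_max_left _ _).trans hk) f' h3
  obtain ⟨K, hK⟩ := hl l h1
  obtain ⟨K', hK'⟩ := h m
  exact ⟨max K K', fun k hk => h2 _ (hK' k ((le_max_right _ _).trans hk))
    (hK k ((le_max_left _ _).trans hk))⟩

theorem far_of_tendsto {B : Set (Node → ℕ)} {x : Node} {z : ℕ → Node}
    (h : Tendsto z atTop (@nhds Node (dow B) x)) (hne : ∀ k, z k ≠ x) (m : ℕ) :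
    ∃ K, ∀ k, K ≤ k → Far x m (z k) := by
  let _ := dow B
  obtain ⟨V, hV, hx, h1⟩ := exists_far (B := B) x m
  obtain ⟨K, hK⟩ := tendsto_atTop_nhds.1 h V hx hV
  exact ⟨K, fun k hk => (h1 _ (hK k hk)).resolve_left (hne k)⟩

section Point

variable {P₀ : Type 1} [Preorder P₀] [OrderTop P₀]
variable {R : Type} {W : R → (ℕ → Nm P₀) → P₀ → Nm P₀ → Prop} {gn : Gen W} {J : Type 1}
  [LinearOrder J] {w : J → RO P₀} {g : J → ℕ → ℕ → RO P₀} {A₀ : Set Node}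

theorem asg_succ (α : Nm P₀) (l : ℕ → Nm P₀) (n i : ℕ) (hi : i < n) :
    asg (α :: (List.range n).map l) (i + 1) = l i := by
  simp [asg, hi]

/-- The event for finitely many members of the scale. -/
theorem cl_iff (hS : SideH gn w g A₀) (hW : WScale w g) {α : ℕ → RO P₀} (hα : nm α ∈ gn.N)
    (l : ℕ → J) (n : ℕ) (hl : ∀ i, i < n → nm (gT (g (l i))) ∈ gn.N) (x : Node) (m : ℕ) :
    Fr (pt gn) (clS (fun i => g (l i)) n (aOf α) x m) ↔
      ∃ a : Node, Far x m a ∧ Fr (pt gn) (aOf α a) ∧ ∀ i, i < n → a ∈ U (Ft (pt gn) (g (l i))) := by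
  let t : List (Nm P₀) := nm α :: (List.range n).map fun i => nm (gT (g (l i)))
  have ht : ∀ y ∈ t, y ∈ gn.N := by
    intro y hy
    rcases List.mem_cons.1 hy with rfl | hy
    · exact hα
    · obtain ⟨i, hi, rfl⟩ := List.mem_map.1 hy
      exact hl i (List.mem_range.1 hi)
  have hun : ∀ i, i < n → un (rl (asg t (i + 1))) = g (l i) := by
    intro i hi
    have e : asg t (i + 1) = nm (gT (g (l i))) := asg_succ _ _ n i hi
    rw [e, rl_nm, un_gT (hW.fn _)]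
  have h : Fr (pt gn) (clS (fun i => un (rl (asg t (i + 1)))) n (aOf (rl (asg t 0))) x m) ↔
      ∃ a : Node, ∃ _ : ∃ l, m ≤ l ∧ x ++ [l] <+: a,
        Fr (pt gn) (aOf (rl (asg t 0)) a) ∧
          ∀ i, i < n → Fr (pt gn) (uV (un (rl (asg t (i + 1)))) a) :=
    hS.pt (.cl n x m) t ht
  have e0 : rl (asg t 0) = α := rl_nm α
  rw [e0, clS_congr (X' := fun i => g (l i)) hun] at h
  rw [h]
  refine exists_congr fun a => ?_
  constructor
  · rintro ⟨h1, h2, h3⟩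
    refine ⟨h1, h2, fun i hi => ?_⟩
    have h4 := h3 i hi
    rw [hun i hi] at h4
    exact (fm_uV hS (hW.fn _) (hl i hi) a).1 h4
  · rintro ⟨h1, h2, h3⟩
    refine ⟨h1, h2, fun i hi => ?_⟩
    rw [hun i hi]
    exact (fm_uV hS (hW.fn _) (hl i hi) a).2 (h3 i hi)

theorem frechet_of (hS : SideH gn w g A₀) (hW : WScale w g) (hF : FreV w g) :
    FrechetIn (realsP gn.M) (BB gn w g) := by
  intro A hA x hx
  obtain ⟨α, hα, hαA⟩ := of_real hS hA
  have hmemA : ∀ a, Fr (pt gn) (aOf α a) ↔ a ∈ A := by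
    intro a
    have h1 : pv (pt gn) α (Encodable.encode a) ↔ stc A (Encodable.encode a) := by rw [hαA]
    refine Iff.trans h1 ⟨?_, fun h => ⟨a, h, rfl⟩⟩
    rintro ⟨b, hb, h⟩
    rwa [Encodable.encode_injective h]
  by_cases hxA : x ∈ A
  · refine ⟨fun _ => x, ?_, fun _ => hxA, ?_⟩
    · have h1 := cst_mem hS x
      have h2 : pv (pt gn) (zcV fun _ a => ⨆ _ : a = x, (⊤ : RO P₀)) = gr fun _ : ℕ => x := by
        funext c
        apply propext
        by_cases hc : ∃ k : ℕ, c = Nat.pair k (Encodable.encode x)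
        · obtain ⟨k, rfl⟩ := hc
          refine ⟨fun _ => ⟨k, rfl⟩, fun _ => ?_⟩
          have h3 := congrFun (congrFun (zOf_zcV (B := RO P₀) fun _ a => ⨆ _ : a = x, ⊤) k) x
          change Fr (pt gn) (zOf (zcV fun _ a => ⨆ _ : a = x, (⊤ : RO P₀)) k x)
          rw [h3]
          exact fr_of_top _ (by simp)
        · constructor
          · intro h3
            exfalso
            refine not_fr_bot (pt gn) (fr_mono ?_ h3)
            refine iSup_le fun k => iSup_le fun a => iSup_le fun e => iSup_le fun e' => ?_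
            exact absurd ⟨k, e' ▸ e⟩ hc
          · rintro ⟨k, hk⟩
            exact absurd ⟨k, hk⟩ hc
      rw [← h2]
      exact real_mem h1
    · let _ := dow (BB gn w g)
      exact tendsto_const_nhds
  -- the closure is forced
  have hcl : ∃ k, gn.pc k ∈ clV w g (aOf α) x := by
    obtain ⟨k, hk | hk⟩ := hS.req (.cl x) [nm α] (by simpa using hα)
    · exfalso
      obtain ⟨y, hy, l, n, m, rfl, h1, h2⟩ := hk
      have h2' : gn.pc k ∈ (clS (fun i => g (l i)) n (aOf (rl (nm α))) x m)ᶜ := h2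
      rw [rl_nm] at h2'
      have hl : ∀ i, nm (gT (g (l i))) ∈ gn.N := by
        intro i
        have h4 := sq_mem hS i hy
        rw [h32_sq_nm] at h4
        exact h4
      have h5 : ∀ i, i < n → Fr (pt gn) (w (l i)) ∧ x ∈ U (Ft (pt gn) (g (l i))) := by
        intro i hi
        have h6 := fr_inf.1 ((fr_pt gn).2 ⟨k, h1 i hi⟩)
        exact ⟨h6.1, (fm_uV hS (hW.fn _) (hl i) x).1 h6.2⟩
      obtain ⟨a, ha, hfar, hU⟩ := exists_of_mem_closure hxA hx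
        ((List.range n).map fun i => Ft (pt gn) (g (l i))) m (by
          intro f hf
          obtain ⟨i, hi, rfl⟩ := List.mem_map.1 hf
          have hi' := List.mem_range.1 hi
          exact ⟨⟨l i, hl i, (h5 i hi').1, rfl⟩, (h5 i hi').2⟩)
      have h7 := (cl_iff hS hW hα l n (fun i _ => hl i) x m).2 ⟨a, hfar, (hmemA a).2 ha,
        fun i hi => hU _ (List.mem_map.2 ⟨i, List.mem_range.2 hi, rfl⟩)⟩
      have h8 := fr_inf.2 ⟨h7, (fr_pt gn).2 ⟨k, h2'⟩⟩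
      rw [inf_compl_eq_bot] at h8
      exact not_fr_bot _ h8
    · refine ⟨k, ?_⟩
      unfold clV
      rw [RO.mem_iInf]
      intro D
      rw [RO.mem_iInf]
      intro m
      rw [RO.mem_himp]
      intro q hq hqD
      by_contra hne
      obtain ⟨r, hr, hr'⟩ := h32_exists_compl hne
      obtain ⟨j₀, -⟩ := hW.dom Empty (fun e => e.elim) fun e => e.elim
      let l : ℕ → J := fun i => D.toList.getD i j₀
      have hl : ∀ i, i < D.toList.length → l i ∈ D := by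
        intro i hi
        have e : l i = D.toList[i] := List.getD_eq_getElem _ _ hi
        rw [e]
        exact Finset.mem_toList.1 (List.getElem_mem hi)
      have hl' : ∀ j ∈ D, ∃ i, i < D.toList.length ∧ l i = j := by
        intro j hj
        obtain ⟨i, hi, e⟩ := List.getElem_of_mem (Finset.mem_toList.2 hj)
        exact ⟨i, hi, (List.getD_eq_getElem _ _ hi).trans e⟩
      refine hk r (hr.trans hq) (nm (h32_cq fun i => gT (g (l i))))
        ⟨l, D.toList.length, m, rfl, fun i hi => ?_, ?_⟩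
      · rw [RO.mem_iInf] at hqD
        have h1 := hqD (l i)
        rw [RO.mem_iInf] at h1
        exact RO.mem_lower hr (h1 (hl i hi))
      · change r ∈ (clS (fun i => g (l i)) D.toList.length (aOf (rl (nm α))) x m)ᶜ
        rw [rl_nm]
        have e : clS (fun i => g (l i)) D.toList.length (aOf α) x m =
            ⨆ a : Node, ⨆ _ : ∃ l, m ≤ l ∧ x ++ [l] <+: a,
              aOf α a ⊓ ⨅ j : J, ⨅ _ : j ∈ D, uV (g j) a := by
          unfold clS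
          refine iSup_congr fun a => iSup_congr fun _ => ?_
          congr 1
          apply le_antisymm
          · refine le_iInf fun j => le_iInf fun hj => ?_
            obtain ⟨i, hi, rfl⟩ := hl' j hj
            exact (iInf_le _ i).trans (iInf_le _ hi)
          · refine le_iInf fun i => le_iInf fun hi => ?_
            exact (iInf_le _ (l i)).trans (iInf_le _ (hl i hi))
        rw [e]
        exact hr'
  obtain ⟨k₀, hk₀⟩ := hcl
  have hex : ∃ k, ∃ y ∈ gn.N, ∃ z, y = nm (zcV z) ∧ gn.pc k ∈ convV w g (aOf α) x z := by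
    obtain ⟨k, hk | hk⟩ := hS.req (.cv x) [nm α] (by simpa using hα)
    · obtain ⟨y, hy, z, h1, h2⟩ := hk
      have h2' : gn.pc k ∈ convV w g (aOf (rl (nm α))) x z := h2
      rw [rl_nm] at h2'
      exact ⟨k, y, hy, z, h1, h2'⟩
    · exfalso
      have h1 : gn.pc (k + k₀) ∈ ⨆ z : ℕ → Node → RO P₀, convV w g (aOf α) x z := by
        have h2 := hF (aOf α) x
        rw [RO.le_def] at h2
        exact h2 _ (RO.mem_lower (gn.pc_le (by omega)) hk₀)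
      obtain ⟨r, hr, z, hz⟩ := RO.mem_iSup.1 h1 _ le_rfl
      refine hk r (hr.trans (gn.pc_le (by omega))) (nm (zcV z)) ⟨z, rfl, ?_⟩
      change r ∈ convV w g (aOf (rl (nm α))) x z
      rw [rl_nm]
      exact hz
  obtain ⟨k₁, y, hy, z, rfl, hz⟩ := hex
  unfold convV at hz
  rw [RO.mem_inf, RO.mem_inf, RO.mem_inf] at hz
  obtain ⟨⟨⟨hz1, hz2⟩, hz3⟩, hz4⟩ := hz
  have hzz : zOf (rl (nm (zcV z))) = z := by
    rw [rl_nm, zOf_zcV]
  have ev1 : Fr (pt gn) (⨅ k : ℕ, ⨆ a : Node, zOf (rl (nm (zcV z))) k a ⊓ aOf (rl (nm α)) a) ↔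
      ∀ k, ∃ a, Fr (pt gn) (zOf (rl (nm (zcV z))) k a) ∧ Fr (pt gn) (aOf (rl (nm α)) a) :=
    hS.pt .cv1 [nm (zcV z), nm α] (by simpa using ⟨hy, hα⟩)
  rw [hzz, rl_nm] at ev1
  have h1 := ev1.1 ((fr_pt gn).2 ⟨k₁, hz1⟩)
  have ev2 : Fr (pt gn) (⨅ k : ℕ, ⨅ a : Node, ⨅ b : Node, ⨅ _ : a ≠ b,
      (zOf (rl (nm (zcV z))) k a ⊓ zOf (rl (nm (zcV z))) k b)ᶜ) ↔
      ∀ k a b, a ≠ b → ¬ (Fr (pt gn) (zOf (rl (nm (zcV z))) k a) ∧
        Fr (pt gn) (zOf (rl (nm (zcV z))) k b)) :=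
    hS.pt .cv2 [nm (zcV z)] (by simpa using hy)
  rw [hzz] at ev2
  have h2 := ev2.1 ((fr_pt gn).2 ⟨k₁, hz2⟩)
  have ev3 : Fr (pt gn) (⨅ m : ℕ, ⨆ K : ℕ, ⨅ k : ℕ, ⨅ _ : K ≤ k, ⨆ a : Node,
      ⨆ _ : ∃ l, m ≤ l ∧ x ++ [l] <+: a, zOf (rl (nm (zcV z))) k a) ↔
      ∀ m, ∃ K, ∀ k, K ≤ k → ∃ a : Node, ∃ _ : ∃ l, m ≤ l ∧ x ++ [l] <+: a,
        Fr (pt gn) (zOf (rl (nm (zcV z))) k a) :=
    hS.pt (.cv3 x) [nm (zcV z)] (by simpa using hy)
  rw [hzz] at ev3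
  have h3 := ev3.1 ((fr_pt gn).2 ⟨k₁, hz3⟩)
  choose zz hzz1 hzz2 using h1
  have huniq : ∀ k a, Fr (pt gn) (z k a) ↔ zz k = a := by
    intro k a
    constructor
    · intro h
      by_contra hne
      exact h2 k _ _ hne ⟨hzz1 k, h⟩
    · rintro rfl
      exact hzz1 k
  refine ⟨zz, ?_, fun k => (hmemA _).1 (hzz2 k), tendsto_iff ?_ ?_⟩
  · have e : pv (pt gn) (zcV z) = gr zz := by
      funext c
      apply propext
      by_cases hc : ∃ (k : ℕ) (a : Node), c = Nat.pair k (Encodable.encode a)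
      · obtain ⟨k, a, rfl⟩ := hc
        have h4 := congrFun (congrFun (zOf_zcV z) k) a
        change Fr (pt gn) (zOf (zcV z) k a) ↔ _
        rw [h4, huniq]
        constructor
        · rintro rfl
          exact ⟨k, rfl⟩
        · rintro ⟨k', hk'⟩
          obtain ⟨h5, h6⟩ := Nat.pair_eq_pair.1 hk'
          have h5' : k = k' := h5
          rw [h5', Encodable.encode_injective h6]
      · constructor
        · intro h4
          exfalso
          refine not_fr_bot (pt gn) (fr_mono ?_ h4)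
          exact iSup_le fun k => iSup_le fun a => iSup_le fun e => absurd ⟨k, a, e⟩ hc
        · rintro ⟨k, hk⟩
          exact absurd ⟨k, zz k, hk⟩ hc
    rw [← e]
    exact real_mem hy
  · intro m
    obtain ⟨K, hK⟩ := h3 m
    refine ⟨K, fun k hk => ?_⟩
    obtain ⟨a, ha, ha'⟩ := hK k hk
    rw [(huniq k a).1 ha']
    exact ha
  · rintro f ⟨j, hj, hwj, rfl⟩ hxU
    have h4 : Fr (pt gn) (⨆ K : ℕ, ⨅ k : ℕ, ⨅ _ : K ≤ k, ⨅ a : Node, z k a ⇨ uV (g j) a) := by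
      obtain ⟨k₂, hk₂⟩ := (fr_pt gn).1 (fr_inf.2 ⟨hwj, (fm_uV hS (hW.fn j) hj x).2 hxU⟩)
      rw [RO.mem_iInf] at hz4
      have h5 := hz4 j
      rw [RO.mem_himp] at h5
      exact (fr_pt gn).2 ⟨k₁ + k₂, h5 _ (gn.pc_le (by omega)) (RO.mem_lower (gn.pc_le (by omega)) hk₂)⟩
    have ev4 : Fr (pt gn) (⨆ K : ℕ, ⨅ k : ℕ, ⨅ _ : K ≤ k, ⨅ a : Node,
        zOf (rl (nm (zcV z))) k a ⇨ uV (un (rl (nm (gT (g j))))) a) ↔
        ∃ K, ∀ k, K ≤ k → ∀ a, Fr (pt gn) (zOf (rl (nm (zcV z))) k a) →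
          Fr (pt gn) (uV (un (rl (nm (gT (g j))))) a) :=
      hS.pt .cv4 [nm (zcV z), nm (gT (g j))] (by simpa using ⟨hy, hj⟩)
    rw [hzz, rl_nm, un_gT (hW.fn j)] at ev4
    obtain ⟨K, hK⟩ := ev4.1 h4
    exact ⟨K, fun k hk => (fm_uV hS (hW.fn j) hj _).1 (hK k hk _ (hzz1 k))⟩

theorem nonFrechet_of (hS : SideH gn w g A₀) (hW : WScale w g) {x : Node} (hx : x ∉ A₀)
    (hcl : clV w g (fun a => ⨆ _ : a ∈ A₀, ⊤) x = ⊤)
    (hconv : ∀ z : ℕ → Node → RO P₀, convV w g (fun a => ⨆ _ : a ∈ A₀, ⊤) x z = ⊥) :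
    ¬ FrechetIn (realsP gn.M) (BB gn w g) := by
  intro hFr
  have hA := stV_mem hS
  have hstA : pv (pt gn) (stV A₀) = stc A₀ := funext fun c => propext (fr_prop _ _)
  have hmem : ∀ a, Fr (pt gn) (aOf (stV A₀) a) ↔ a ∈ A₀ := by
    intro a
    rw [aOf_stV]
    exact fr_prop _ _
  obtain ⟨z, hz, hzA, hzt⟩ := hFr A₀ (by rw [← hstA]; exact real_mem hA) x (by
    refine mem_closure_of fun l m hl => ?_
    -- indices
    have hidx : ∀ f : Node → ℕ, ∃ j : J, f ∈ l → nm (gT (g j)) ∈ gn.N ∧ Fr (pt gn) (w j) ∧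
        f = Ft (pt gn) (g j) := by
      intro f
      obtain ⟨j₀, -⟩ := hW.dom Empty (fun e => e.elim) fun e => e.elim
      by_cases hf : f ∈ l
      · obtain ⟨j, h1, h2, h3⟩ := (hl f hf).1
        exact ⟨j, fun _ => ⟨h1, h2, h3⟩⟩
      · exact ⟨j₀, fun h => absurd h hf⟩
    choose ix hix using hidx
    obtain ⟨j₀, -⟩ := hW.dom Empty (fun e => e.elim) fun e => e.elim
    let li : ℕ → J := fun i => (l.map ix).getD i j₀
    have hli : ∀ i (hi : i < l.length), li i = ix l[i] := by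
      intro i hi
      simp [li, hi]
    have hlN : ∀ i, i < l.length → nm (gT (g (li i))) ∈ gn.N := by
      intro i hi
      rw [hli i hi]
      exact (hix _ (List.getElem_mem hi)).1
    classical
    let D : Finset J := (Finset.range l.length).image li
    have h1 : (⊤ : RO P₀) ≤ (⨅ j : J, ⨅ _ : j ∈ D, w j ⊓ uV (g j) x) ⇨
        ⨆ a : Node, ⨆ _ : ∃ l, m ≤ l ∧ x ++ [l] <+: a,
          (⨆ _ : a ∈ A₀, ⊤) ⊓ ⨅ j : J, ⨅ _ : j ∈ D, uV (g j) a :=
      hcl.ge.trans ((iInf_le _ D).trans (iInf_le _ m))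
    have h2 : Fr (pt gn) (⨅ j : J, ⨅ _ : j ∈ D, w j ⊓ uV (g j) x) := by
      have h3 := fr_finite_inf (pt gn) l.length (fun i => w (li i) ⊓ uV (g (li i)) x) (by
        intro i hi
        have h4 := hix _ (List.getElem_mem hi)
        rw [← hli i hi] at h4
        refine fr_inf.2 ⟨h4.2.1, (fm_uV hS (hW.fn _) (hlN i hi) x).2 ?_⟩
        rw [← h4.2.2]
        exact (hl _ (List.getElem_mem hi)).2)
      refine fr_mono ?_ h3
      refine le_iInf fun j => le_iInf fun hj => ?_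
      obtain ⟨i, hi, rfl⟩ := Finset.mem_image.1 hj
      exact (iInf_le _ i).trans (iInf_le _ (Finset.mem_range.1 hi))
    have h3 : Fr (pt gn) (clS (fun i => g (li i)) l.length (aOf (stV A₀)) x m) := by
      have h4 := fr_inf.2 ⟨h2, fr_mono h1 (fr_top _)⟩
      refine fr_mono ?_ h4
      refine inf_himp_le.trans ?_
      rw [aOf_stV]
      unfold clS
      refine iSup_mono fun a => iSup_mono fun _ => inf_le_inf_left _ ?_
      refine le_iInf fun i => le_iInf fun hi => ?_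
      exact (iInf_le _ (li i)).trans (iInf_le _ (Finset.mem_image.2 ⟨i, Finset.mem_range.2 hi, rfl⟩))
    obtain ⟨a, hfar, haA, hU⟩ := (cl_iff hS hW hA li l.length hlN x m).1 h3
    refine ⟨a, (hmem a).1 haA, hfar, fun f hf => ?_⟩
    obtain ⟨i, hi, rfl⟩ := List.getElem_of_mem hf
    have h4 := hU i hi
    rw [hli i hi] at h4
    rw [(hix _ (List.getElem_mem hi)).2.2]
    exact h4)
  obtain ⟨ζ, hζ, hζz⟩ := of_real hS hz
  have hzk : ∀ k a, Fr (pt gn) (zOf ζ k a) ↔ z k = a := by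
    intro k a
    have h1 : pv (pt gn) ζ (Nat.pair k (Encodable.encode a)) ↔
        gr z (Nat.pair k (Encodable.encode a)) := by rw [hζz]
    refine Iff.trans h1 ⟨?_, ?_⟩
    · rintro ⟨k', hk'⟩
      obtain ⟨h2, h3⟩ := Nat.pair_eq_pair.1 hk'
      have h2' : k = k' := h2
      rw [h2', Encodable.encode_injective h3]
    · rintro rfl
      exact ⟨k, rfl⟩
  have ev1 : Fr (pt gn) (⨅ k : ℕ, ⨆ a : Node, zOf (rl (nm ζ)) k a ⊓ aOf (rl (nm (stV A₀))) a) ↔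
      ∀ k, ∃ a, Fr (pt gn) (zOf (rl (nm ζ)) k a) ∧ Fr (pt gn) (aOf (rl (nm (stV A₀))) a) :=
    hS.pt .cv1 [nm ζ, nm (stV A₀)] (by simpa using ⟨hζ, hA⟩)
  rw [rl_nm, rl_nm] at ev1
  have h1 := ev1.2 fun k => ⟨z k, (hzk k _).2 rfl, (hmem _).2 (hzA k)⟩
  have ev2 : Fr (pt gn) (⨅ k : ℕ, ⨅ a : Node, ⨅ b : Node, ⨅ _ : a ≠ b,
      (zOf (rl (nm ζ)) k a ⊓ zOf (rl (nm ζ)) k b)ᶜ) ↔
      ∀ k a b, a ≠ b → ¬ (Fr (pt gn) (zOf (rl (nm ζ)) k a) ∧ Fr (pt gn) (zOf (rl (nm ζ)) k b)) :=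
    hS.pt .cv2 [nm ζ] (by simpa using hζ)
  rw [rl_nm] at ev2
  have h2 := ev2.2 fun k a b hab h => hab (((hzk k a).1 h.1).symm.trans ((hzk k b).1 h.2))
  have ev3 : Fr (pt gn) (⨅ m : ℕ, ⨆ K : ℕ, ⨅ k : ℕ, ⨅ _ : K ≤ k, ⨆ a : Node,
      ⨆ _ : ∃ l, m ≤ l ∧ x ++ [l] <+: a, zOf (rl (nm ζ)) k a) ↔
      ∀ m, ∃ K, ∀ k, K ≤ k → ∃ a : Node, ∃ _ : ∃ l, m ≤ l ∧ x ++ [l] <+: a,
        Fr (pt gn) (zOf (rl (nm ζ)) k a) :=
    hS.pt (.cv3 x) [nm ζ] (by simpa using hζ)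
  rw [rl_nm] at ev3
  have hne : ∀ k, z k ≠ x := fun k h => hx (h ▸ hzA k)
  have h3 := ev3.2 fun m => by
    obtain ⟨K, hK⟩ := far_of_tendsto hzt hne m
    exact ⟨K, fun k hk => ⟨z k, hK k hk, (hzk k _).2 rfl⟩⟩
  obtain ⟨k, hk | hk⟩ := hS.req (.nc x) [nm ζ] (by simpa using hζ)
  · obtain ⟨y, hy, j, rfl, h4, h5⟩ := hk
    have h4' := fr_inf.1 ((fr_pt gn).2 ⟨k, h4⟩)
    have h5' : gn.pc k ∈ (⨆ K : ℕ, ⨅ k : ℕ, ⨅ _ : K ≤ k, ⨅ a : Node,
        zOf (rl (nm ζ)) k a ⇨ uV (g j) a)ᶜ := h5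
    have ev4 : Fr (pt gn) (⨆ K : ℕ, ⨅ k : ℕ, ⨅ _ : K ≤ k, ⨅ a : Node,
        zOf (rl (nm ζ)) k a ⇨ uV (un (rl (nm (gT (g j))))) a) ↔
        ∃ K, ∀ k, K ≤ k → ∀ a, Fr (pt gn) (zOf (rl (nm ζ)) k a) →
          Fr (pt gn) (uV (un (rl (nm (gT (g j))))) a) :=
      hS.pt .cv4 [nm ζ, nm (gT (g j))] (by simpa using ⟨hζ, hy⟩)
    rw [rl_nm, rl_nm, un_gT (hW.fn j)] at ev4
    rw [rl_nm] at h5'
    have hxU : x ∈ U (Ft (pt gn) (g j)) := (fm_uV hS (hW.fn j) hy x).1 h4'.2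
    have hopen : @IsOpen Node (dow (BB gn w g)) (U (Ft (pt gn) (g j))) :=
      isOpen_sub (Or.inr ⟨_, ⟨j, hy, h4'.1, rfl⟩, rfl⟩)
    let _ := dow (BB gn w g)
    obtain ⟨K, hK⟩ := tendsto_atTop_nhds.1 hzt _ hxU hopen
    have h6 := ev4.2 ⟨K, fun k hk a ha => by
      rw [← (hzk k a).1 ha]
      exact (fm_uV hS (hW.fn j) hy _).2 (hK k hk)⟩
    have h7 := fr_inf.2 ⟨h6, (fr_pt gn).2 ⟨k, h5'⟩⟩
    rw [inf_compl_eq_bot] at h7
    exact not_fr_bot _ h7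
  · have h4 : Fr (pt gn) (⨅ j : J, (w j ⊓ uV (g j) x) ⇨ ⨆ K : ℕ, ⨅ k : ℕ, ⨅ _ : K ≤ k,
        ⨅ a : Node, zOf ζ k a ⇨ uV (g j) a) := by
      refine (fr_pt gn).2 ⟨k, ?_⟩
      rw [RO.mem_iInf]
      intro j
      rw [RO.mem_himp]
      intro q hq hqj
      by_contra hne
      obtain ⟨r, hr, hr'⟩ := h32_exists_compl hne
      refine hk r (hr.trans hq) (nm (gT (g j))) ⟨j, rfl, RO.mem_lower hr hqj, ?_⟩
      change r ∈ (⨆ K : ℕ, ⨅ k : ℕ, ⨅ _ : K ≤ k, ⨅ a : Node, zOf (rl (nm ζ)) k a ⇨ uV (g j) a)ᶜ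
      rw [rl_nm]
      exact hr'
    have h5 : Fr (pt gn) (convV w g (fun a => ⨆ _ : a ∈ A₀, ⊤) x (zOf ζ)) := by
      rw [aOf_stV] at h1
      exact fr_inf.2 ⟨fr_inf.2 ⟨fr_inf.2 ⟨h1, h2⟩, h3⟩, h4⟩
    rw [hconv] at h5
    exact not_fr_bot _ h5

end Point

/-- The transfer. -/
theorem exists_model {P₀ : Type 1} [Preorder P₀] [OrderTop P₀] {J₁ J₂ : Type 1} [LinearOrder J₁]
    [LinearOrder J₂] {w₁ : J₁ → RO P₀} {g₁ : J₁ → ℕ → ℕ → RO P₀} {w₂ : J₂ → RO P₀}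
    {g₂ : J₂ → ℕ → ℕ → RO P₀} (h₁ : WScale w₁ g₁) (h₂ : WScale w₂ g₂) (hF : FreV w₁ g₁)
    (hN : NonFreV w₂ g₂) :
    ∃ M : Set ZFSet.{0}, M.Countable ∧ IsTransModelZFC M ∧ Sentence (realsP M) (setsP M) := by
  obtain ⟨A, x, hx, hcl, hconv⟩ := hN
  obtain ⟨R₁, W₁, gn, hch, hreq, hpt⟩ := exists_point (P := P₀)
    (fun r : TrR ⊕ TrR => Sum.elim (TrW w₁ g₁ A) (TrW w₂ g₂ A) r) TrEs tr_ae
  have hS₁ : SideH gn w₁ g₁ A := ⟨fun r t ht => hreq (Sum.inl r) t ht, hpt⟩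
  have hS₂ : SideH gn w₂ g₂ A := ⟨fun r t ht => hreq (Sum.inr r) t ht, hpt⟩
  exact ⟨gn.M, gn.countable_M, zfc_of_ch gn hch,
    ⟨BB gn w₁ g₁, bb_scale hS₁ h₁, bb_robust hS₁ h₁, frechet_of hS₁ h₁ hF⟩,
    BB gn w₂ g₂, bb_scale hS₂ h₂, bb_robust hS₂ h₂, nonFrechet_of hS₂ h₂ hx hcl hconv⟩

end Pool.Agent.Helper50.LF
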